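import Pool.Agent.H58.QH3
import Pool.Agent.H58.QHDefs

namespace Pool.Agent.Results.MP_f019fe_gt.AllM
open Pool.Agent.H58 Pool.Agent.H58.QHD

theorem aux (K : Type) [NormedDivisionRing K] [StarRing K] [NormedAlgebra ℝ K] [QH.HK K]
    (n m : ℕ) (hn : 1 ≤ n) (hm : n < m) : HasExotic K n m := by
  obtain ⟨f, h1, h2, h3⟩ := QH.mainD (K := K) (ι := Fin n) (κ := Fin m) ⟨0, hn⟩
    ((finSuccEquiv n).symm.toEmbedding.trans (Fin.castLEEmb hm))
  refine ⟨f, ⟨h1, 1, le_rfl, Real.log 3, Real.log_nonneg (by norm_num), fun x hx y hy => ?_⟩,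
    fun g hg R => h3 g hg.1 (fun x y hx hy => hg.2 x hx y hy) R⟩
  obtain ⟨a, b⟩ := h2 x y hx hy
  have c : 0 ≤ Real.log 3 := Real.log_nonneg (by norm_num)
  unfold QH.DD QH.qq at a b
  unfold D
  constructor <;> linarith

theorem result (n m : ℕ) (hn : 1 ≤ n) (hm : n < m) :
    HasExotic ℂ n m ∧ HasExotic (Quaternion ℝ) n m :=
  ⟨aux _ n m hn hm, aux _ n m hn hm⟩

end Pool.Agent.Results.MP_f019fe_gt.AllM
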